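import Mathlib
import Pool.Agent.H68.AC.Targets

/-!
# SETH for constant-depth circuits: locality of block paths (`T_LOC`)
-/

namespace Pool.Agent.H42.AC

open Finset
open Pool.Agent.H68.AC

theorem updL_congr_at {V : Type} [DecidableEq V] {κ κ' : PA V} (ψ : List (V × Bool)) {v : V}
    (h : κ v = κ' v) : updL κ ψ v = updL κ' ψ v := by
  induction ψ generalizing κ κ' with
  | nil => exact h
  | cons c ψ ih =>
    rw [updL_cons, updL_cons]
    apply ih
    by_cases hv : v = c.1
    · rw [hv, upd_self, upd_self]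
    · rw [upd_ne _ _ hv, upd_ne _ _ hv, h]

theorem sub_updL {V : Type} [DecidableEq V] {κ : PA V} {α : List (V × Bool)}
    (h : ∀ v ∈ α.map Prod.fst, κ v = none) : Sub κ (updL κ α) := by
  intro v b hv
  rw [updL_not_mem]
  · exact hv
  · intro hm
    rw [h v hm] at hv
    exact absurd hv (by simp)

theorem fr_congr {V : Type} [DecidableEq V] {κ κ' : PA V} {τ : List (V × Bool)}
    (h : ∀ c ∈ τ, κ c.1 = κ' c.1) : fr κ τ = fr κ' τ := by
  unfold fr
  congr 1
  apply List.filter_congr
  intro v hv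
  rw [List.mem_map] at hv
  obtain ⟨c, hc, rfl⟩ := hv
  rw [h c hc]

theorem loc (hN : T_NXL) : T_LOC := by
  intro V _ _ D κA κB csA csB π
  induction π generalizing κA κB with
  | nil =>
    intro hS hE _ _
    refine ⟨trivial, ?_⟩
    intro c hc
    rw [List.flatten_nil, updL_nil] at hc ⊢
    obtain ⟨h1, h2⟩ := hN V D κA κB csA csB hS hE
    rcases hc with ⟨hc, hcc⟩ | ⟨τ, hτ, hf, hcc⟩
    · exact Or.inl ⟨h1 hc, hcc⟩
    · have hav : ∀ c ∈ τ, κB c.1 ≠ none := by
        intro c hc hn
        have : c.1 ∈ fr κB τ := mem_fr.2 ⟨List.mem_map_of_mem hc, hn⟩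
        rw [hf] at this
        exact absurd this (by simp)
      have hA : Avoid D τ := fun c hc hD => hav c hc (hE.2 _ hD)
      refine Or.inr ⟨τ, h2 τ hτ hA, ?_, hcc⟩
      rw [fr_congr (κ' := κB) (fun c hc => hE.1 _ (hA c hc)), hf]
  | cons α π ih =>
    intro hS hE hπ hA
    obtain ⟨⟨τ, hτ, hf, hα⟩, hπ'⟩ := hπ
    obtain ⟨_, h2⟩ := hN V D κA κB csA csB hS hE
    have hAα : ∀ v ∈ α.map Prod.fst, v ∉ D := by
      intro v hv
      rw [List.mem_map] at hv
      obtain ⟨c, hc, rfl⟩ := hv
      exact hA c (by rw [List.flatten_cons]; exact List.mem_append_left _ hc)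
    have hAπ : Avoid D π.flatten := fun c hc =>
      hA c (by rw [List.flatten_cons]; exact List.mem_append_right _ hc)
    have hAτ : Avoid D τ := by
      intro c hc
      by_cases hn : κB c.1 = none
      · have h3 : c.1 ∈ fr κB τ := mem_fr.2 ⟨List.mem_map_of_mem hc, hn⟩
        rw [← hα] at h3
        exact hAα _ h3
      · exact fun hD => hn (hE.2 _ hD)
    have hfr : fr κA τ = fr κB τ := fr_congr (fun c hc => hE.1 _ (hAτ c hc))
    have hfreeB : ∀ v ∈ α.map Prod.fst, κB v = none := by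
      intro v hv
      rw [hα] at hv
      exact (mem_fr.1 hv).2
    have hfreeA : ∀ v ∈ α.map Prod.fst, κA v = none := by
      intro v hv
      rw [hE.1 v (hAα v hv)]
      exact hfreeB v hv
    have hS' : Sim D (updL κA α) csA csB := by
      unfold Sim at hS ⊢
      apply hS.imp
      intro a b hab
      exact ⟨hab.1, fun y hy => hab.2.1 y (hy.of_sub (sub_updL hfreeA)), hab.2.2⟩
    have hE' : ExtOn D (updL κA α) (updL κB α) := by
      constructor
      · intro v hv
        exact updL_congr_at α (hE.1 v hv)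
      · intro v hv
        rw [updL_not_mem _ _ _ (fun hm => hAα v hm hv)]
        exact hE.2 v hv
    obtain ⟨h3, h4⟩ := ih (updL κA α) (updL κB α) hS' hE' hπ' hAπ
    refine ⟨⟨⟨τ, h2 τ hτ hAτ, by rw [hfr]; exact hf, by rw [hfr]; exact hα⟩, h3⟩, ?_⟩
    intro c hc
    rw [List.flatten_cons, updL_append] at hc ⊢
    exact h4 c hc

end Pool.Agent.H42.AC
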