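import Mathlib
import Pool.Agent.H68.AC.Targets
import Pool.Agent.H42.AC.LOC

/-!
# SETH for constant-depth circuits: the encoding (`T_SWM`)
-/

namespace Pool.Agent.H42.AC

open Finset
open Pool.Agent.H68.AC

theorem updL_congr_mem {V : Type} [DecidableEq V] {κ κ' : PA V} (ψ : List (V × Bool)) {v : V}
    (h : v ∈ ψ.map Prod.fst) : updL κ ψ v = updL κ' ψ v := by
  induction ψ generalizing κ κ' with
  | nil => simp at h
  | cons c ψ ih =>
    rw [updL_cons, updL_cons]
    by_cases hv : v ∈ ψ.map Prod.fst
    · exact ih hv
    · simp only [List.map_cons, List.mem_cons] at h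
      rcases h with h | h
      · rw [updL_not_mem _ _ _ hv, updL_not_mem _ _ _ hv, h, upd_self, upd_self]
      · exact absurd h hv

/-- the answer of `τ` at `v` -/
def ansOf {V : Type} [DecidableEq V] (τ : List (V × Bool)) (v : V) : Bool := decide ((v, true) ∈ τ)

theorem ansOf_eq {V : Type} [DecidableEq V] {τ : List (V × Bool)} (h : Cons τ) {c : V × Bool}
    (hc : c ∈ τ) : ansOf τ c.1 = c.2 := by
  unfold ansOf
  cases hb : c.2 with
  | true =>
    rw [decide_eq_true_eq, ← hb]
    exact hc
  | false =>
    rw [decide_eq_false_iff_not]
    intro h1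
    have h2 := h c hc (c.1, true) h1 rfl
    rw [hb] at h2
    exact absurd h2 (by simp)

theorem swm (hN : T_NXS) (hM : T_NXM) (hBPN : T_BPN) : T_SWM := by
  intro V _ _ cs P ρ R π
  have key : ∀ (π : List (List (V × Bool))) (Q : List (V × Bool)),
      IsBP cs (updL (mask P (mrg ρ R)) Q) π → ∃ R' : PA V,
      (∀ v, (v ∈ P ∨ v ∉ π.flatten.map Prod.fst) → R' v = R v) ∧
      (∀ v, v ∉ P → v ∈ π.flatten.map Prod.fst → R v = none ∧ R' v ≠ none) ∧
      IsD cs P (updL (mask P (mrg ρ R')) Q) π := by
    intro π
    induction π with
    | nil =>
      intro Q _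
      exact ⟨R, fun _ _ => rfl, fun v _ hv => absurd hv (by simp), trivial⟩
    | cons α π ih =>
      intro Q hπ
      have hnodup := (hBPN V cs _ _ hπ).1
      obtain ⟨⟨τ, hτ, hf, hα⟩, hπ'⟩ := hπ
      set κ := updL (mask P (mrg ρ R)) Q with hκ
      rw [hκ, ← updL_append] at hπ'
      obtain ⟨R1, h1, h2, h3⟩ := ih (Q ++ α) hπ'
      obtain ⟨hag, hcons, _⟩ := (hN V cs κ).1 τ hτ
      rw [List.flatten_cons, List.map_append, List.nodup_append] at hnodup
      have hdisj : ∀ v, v ∈ α.map Prod.fst → v ∉ π.flatten.map Prod.fst := fun v hv hv' =>
        hnodup.2.2 v hv v hv' rfl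
      -- facts about the free variables of `τ`
      have hfree : ∀ v, v ∈ fr κ τ → v ∉ Q.map Prod.fst ∧ (v ∉ P → ρ v = none ∧ R v = none) := by
        intro v hv
        have hκv := (mem_fr.1 hv).2
        have hQ : v ∉ Q.map Prod.fst := fun hm => updL_ne_none _ _ _ hm hκv
        refine ⟨hQ, fun hP => ?_⟩
        rw [hκ, updL_not_mem _ _ _ hQ] at hκv
        unfold mask mrg at hκv
        rw [if_neg hP] at hκv
        cases hρ : ρ v with
        | none => rw [hρ] at hκv; exact ⟨rfl, hκv⟩
        | some b => rw [hρ] at hκv; exact absurd hκv (by simp)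
      set R' : PA V := fun v => if v ∈ fr κ τ ∧ v ∉ P then some (ansOf τ v) else R1 v with hR'
      have hR'out : ∀ v, v ∉ fr κ τ → R' v = R1 v := by
        intro v hv
        simp only [hR', hv, false_and, if_false]
      have hR'P : ∀ v, v ∈ P → R' v = R1 v := by
        intro v hv
        simp only [hR', hv, not_true_eq_false, and_false, if_false]
      have hR'in : ∀ v, v ∈ fr κ τ → v ∉ P → R' v = some (ansOf τ v) := by
        intro v hv hP
        simp only [hR', hv, hP, not_false_eq_true, and_true, if_true]
      set κ' := updL (mask P (mrg ρ R')) Q with hκ'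
      have hsub : Sub κ κ' := by
        intro v b hv
        by_cases hQ : v ∈ Q.map Prod.fst
        · rw [hκ', updL_congr_mem (κ' := mask P (mrg ρ R)) Q hQ]
          exact hv
        · have hvn : v ∉ fr κ τ := by
            intro hm
            rw [(mem_fr.1 hm).2] at hv
            exact absurd hv (by simp)
          rw [hκ', updL_not_mem _ _ _ hQ]
          rw [hκ, updL_not_mem _ _ _ hQ] at hv
          unfold mask mrg at hv ⊢
          by_cases hP : v ∈ P
          · rw [if_pos hP] at hv
            exact absurd hv (by simp)
          · rw [if_neg hP] at hv ⊢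
            cases hρ : ρ v with
            | some b' => rw [hρ] at hv; exact hv
            | none =>
              rw [hρ] at hv
              simp only at hv ⊢
              rw [hR'out v hvn]
              by_cases hm : v ∈ π.flatten.map Prod.fst
              · rw [(h2 v hP hm).1] at hv
                exact absurd hv (by simp)
              · rw [h1 v (Or.inr hm)]
                exact hv
      have hag' : Agree κ' τ := by
        intro c hc b hb
        cases hκc : κ c.1 with
        | some b' =>
          rw [hsub c.1 b' hκc, Option.some.injEq] at hb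
          rw [← hb]
          exact hag c hc b' hκc
        | none =>
          have hcf : c.1 ∈ fr κ τ := mem_fr.2 ⟨List.mem_map_of_mem hc, hκc⟩
          obtain ⟨hQ, hρR⟩ := hfree c.1 hcf
          rw [hκ', updL_not_mem _ _ _ hQ] at hb
          unfold mask mrg at hb
          by_cases hP : c.1 ∈ P
          · rw [if_pos hP] at hb
            exact absurd hb (by simp)
          · rw [if_neg hP, (hρR hP).1] at hb
            simp only at hb
            rw [hR'in c.1 hcf hP, Option.some.injEq, ansOf_eq hcons hc] at hb
            exact hb.symm
      have hτ' : nxt cs κ' = some τ := hM V cs κ κ' τ hτ hsub hag'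
      refine ⟨R', ?_, ?_, ?_⟩
      · intro v hv
        rcases hv with hv | hv
        · rw [hR'P v hv]
          exact h1 v (Or.inl hv)
        · rw [List.flatten_cons, List.map_append, List.mem_append, not_or] at hv
          rw [hα] at hv
          rw [hR'out v hv.1]
          exact h1 v (Or.inr hv.2)
      · intro v hP hv
        by_cases hf' : v ∈ fr κ τ
        · refine ⟨((hfree v hf').2 hP).2, ?_⟩
          rw [hR'in v hf' hP]
          simp
        · rw [List.flatten_cons, List.map_append, List.mem_append, hα] at hv
          rcases hv with hv | hv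
          · exact absurd hv hf'
          · rw [hR'out v hf']
            exact h2 v hP hv
      · refine ⟨⟨τ, hτ', ?_, (fr κ τ).toFinset, ?_, ?_⟩, ?_⟩
        · intro h
          rw [h, List.map_nil] at hα
          exact hf hα.symm
        · intro v hvP hvτ
          rw [List.mem_toFinset, mem_fr]
          have e1 : κ v = κ' v := by
            rw [hκ, hκ']
            apply updL_congr_at
            unfold mask
            rw [if_pos hvP, if_pos hvP]
          rw [e1]
          exact ⟨fun h => h.2, fun h => ⟨hvτ, h⟩⟩
        · rw [hα]
          have e1 : fr κ τ = ((τ.map Prod.fst).filter (fun v => κ v = none)).dedup := rfl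
          conv_lhs => rw [e1]
          congr 1
          apply List.filter_congr
          intro v hv
          simp only [List.mem_toFinset, mem_fr, hv, true_and]
        · have e1 : updL κ' α = updL (mask P (mrg ρ R1)) (Q ++ α) := by
            rw [hκ', ← updL_append]
            funext v
            by_cases hm : v ∈ (Q ++ α).map Prod.fst
            · exact updL_congr_mem _ hm
            · apply updL_congr_at
              rw [List.map_append, List.mem_append, not_or, hα] at hm
              unfold mask mrg
              rw [hR'out v hm.2]
          rw [e1]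
          exact h3
  intro hπ
  exact key π [] hπ

end Pool.Agent.H42.AC
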