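import Mathlib
import Pool.Agent.H68.AC.Targets
import Pool.Agent.H42.AC.LOC

/-!
# SETH for constant-depth circuits: the weighted number of decodings (`T_SWS`)
-/

namespace Pool.Agent.H42.AC

open Finset
open Pool.Agent.H68.AC

theorem sum_biUnion_le' {ι α : Type*} [DecidableEq α] (s : Finset ι) (t : ι → Finset α) (f : α → ℝ)
    (hf : ∀ a, 0 ≤ f a) : ∑ x ∈ s.biUnion t, f x ≤ ∑ i ∈ s, ∑ x ∈ t i, f x := by
  classical
  induction s using Finset.induction_on with
  | empty => simp
  | insert a s ha ih =>
    rw [Finset.biUnion_insert, Finset.sum_insert ha]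
    have h1 := Finset.sum_union_inter (s₁ := t a) (s₂ := s.biUnion t) (f := f)
    have h2 : 0 ≤ ∑ x ∈ t a ∩ s.biUnion t, f x := Finset.sum_nonneg (fun x _ => hf x)
    linarith

section

variable {V : Type} [DecidableEq V]

/-- weight of one query -/
noncomputable def wv (μ : ℝ) (P : Finset V) (v : V) : ℝ := if v ∈ P then (1 / 8 : ℝ) else μ

theorem gW_eq (μ : ℝ) (P : Finset V) (ψ : List (V × Bool)) :
    gW μ P ψ = ((ψ.map Prod.fst).map (wv μ P)).prod := by
  unfold gW
  rw [List.map_map]
  rfl

theorem gW_append (μ : ℝ) (P : Finset V) (ψ ψ' : List (V × Bool)) :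
    gW μ P (ψ ++ ψ') = gW μ P ψ * gW μ P ψ' := by
  unfold gW
  rw [List.map_append, List.prod_append]

theorem gW_nil (μ : ℝ) (P : Finset V) : gW μ P [] = 1 := by simp [gW]

theorem gW_nonneg {μ : ℝ} (hμ : 0 ≤ μ) (P : Finset V) (ψ : List (V × Bool)) : 0 ≤ gW μ P ψ := by
  unfold gW
  apply List.prod_nonneg
  intro a ha
  rw [List.mem_map] at ha
  obtain ⟨c, _, rfl⟩ := ha
  split_ifs
  · norm_num
  · exact hμ

omit [DecidableEq V] in
theorem path_length {t : DT V} {τ : List (V × Bool)} {c : Bool} (h : IsPath t τ c) :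
    τ.length ≤ t.depth := by
  induction h with
  | leaf b => simp [DT.depth]
  | left v l r ψ c _ ih =>
    simp only [List.length_cons, DT.depth]
    have := le_max_left l.depth r.depth
    omega
  | right v l r ψ c _ ih =>
    simp only [List.length_cons, DT.depth]
    have := le_max_right l.depth r.depth
    omega

/-- the weights of all answers to a list of queries -/
theorem sum_ansF (μ : ℝ) (P : Finset V) (L : List V) :
    ∑ α ∈ ansF L, gW μ P α = (L.map (fun v => 2 * wv μ P v)).prod := by
  induction L with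
  | nil => simp [ansF, gW_nil]
  | cons v L ih =>
    simp only [ansF, List.map_cons, List.prod_cons]
    rw [Finset.sum_union, Finset.sum_image, Finset.sum_image]
    · have e1 : ∀ b : Bool, ∀ α : List (V × Bool), gW μ P ((v, b) :: α) = wv μ P v * gW μ P α := by
        intro b α
        unfold gW
        rw [List.map_cons, List.prod_cons]
        rfl
      simp_rw [e1]
      rw [← Finset.mul_sum, ih]
      ring
    · intro a _ b _ h
      exact (List.cons.inj h).2
    · intro a _ b _ h
      exact (List.cons.inj h).2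
    · rw [Finset.disjoint_left]
      intro a h1 h2
      rw [Finset.mem_image] at h1 h2
      obtain ⟨x, _, rfl⟩ := h1
      obtain ⟨y, _, h⟩ := h2
      have h3 := (List.cons.inj h).1
      have h4 := congrArg Prod.snd h3
      simp at h4

/-- the queries with variables in `B` -/
def lstB (τ : List (V × Bool)) (B : Finset V) : List V := ((τ.map Prod.fst).filter (fun v => v ∈ B)).dedup

theorem lstB_toFinset (τ : List (V × Bool)) {B : Finset V} (hB : B ⊆ (τ.map Prod.fst).toFinset) :
    (lstB τ B).toFinset = B := by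
  ext v
  rw [List.mem_toFinset, lstB, List.mem_dedup, List.mem_filter]
  simp only [decide_eq_true_eq]
  constructor
  · exact fun h => h.2
  · intro h
    exact ⟨List.mem_toFinset.1 (hB h), h⟩

theorem lstB_inter (τ : List (V × Bool)) (B : Finset V) :
    lstB τ (B ∩ (τ.map Prod.fst).toFinset) = lstB τ B := by
  unfold lstB
  congr 1
  apply List.filter_congr
  intro v hv
  simp only [Finset.mem_inter, List.mem_toFinset]
  simp [hv]

theorem sum_heads {μ : ℝ} (hμ : 0 ≤ μ) (P : Finset V) (κ : PA V) (τ : List (V × Bool)) {w : ℕ}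
    (hw : τ.length ≤ w) (hwμ : 16 * w * μ ≤ 1) (Bs : Finset (Finset V))
    (hBs : ∀ B ∈ Bs, B ⊆ (τ.map Prod.fst).toFinset ∧ B ≠ ∅ ∧
      ∀ v ∈ P, v ∈ τ.map Prod.fst → (v ∈ B ↔ κ v = none)) :
    ∑ B ∈ Bs, ∑ α ∈ ansF (lstB τ B), gW μ P α ≤ 1 / 3 := by
  set Y : Finset V := (τ.map Prod.fst).toFinset with hY
  set f : V → ℝ := fun v => if v ∈ P then (if κ v = none then 1 / 4 else 0) else 2 * μ with hf
  set g : V → ℝ := fun v => if v ∈ P then (if κ v = none then 0 else 1) else 1 with hg
  have hf0 : ∀ v, 0 ≤ f v := by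
    intro v; simp only [hf]; split_ifs <;> positivity
  have hg0 : ∀ v, 0 ≤ g v := by
    intro v; simp only [hg]; split_ifs <;> norm_num
  have hterm0 : ∀ B : Finset V, 0 ≤ (∏ v ∈ B, f v) * ∏ v ∈ Y \ B, g v := by
    intro B
    exact mul_nonneg (Finset.prod_nonneg (fun v _ => hf0 v)) (Finset.prod_nonneg (fun v _ => hg0 v))
  have h1 : ∀ B ∈ Bs,
      ∑ α ∈ ansF (lstB τ B), gW μ P α = (∏ v ∈ B, f v) * ∏ v ∈ Y \ B, g v := by
    intro B hB
    obtain ⟨hBY, _, hBP⟩ := hBs B hB
    have e0 : (lstB τ B).Nodup := List.nodup_dedup _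
    rw [sum_ansF, ← List.prod_toFinset _ e0, lstB_toFinset τ hBY]
    have e2 : ∏ v ∈ Y \ B, g v = 1 := by
      apply Finset.prod_eq_one
      intro v hv
      rw [Finset.mem_sdiff] at hv
      simp only [hg]
      split_ifs with h2 h3
      · exact absurd ((hBP v h2 (List.mem_toFinset.1 hv.1)).2 h3) hv.2
      · rfl
      · rfl
    rw [e2, mul_one]
    apply Finset.prod_congr rfl
    intro v hv
    simp only [hf, wv]
    split_ifs with h2 h3
    · norm_num
    · exact absurd ((hBP v h2 (List.mem_toFinset.1 (hBY hv))).1 hv) h3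
    · rfl
  rw [Finset.sum_congr rfl h1]
  have h2 : ∑ B ∈ Bs, (∏ v ∈ B, f v) * ∏ v ∈ Y \ B, g v
      ≤ ∑ B ∈ Y.powerset.erase ∅, (∏ v ∈ B, f v) * ∏ v ∈ Y \ B, g v := by
    apply Finset.sum_le_sum_of_subset_of_nonneg
    · intro B hB
      rw [Finset.mem_erase, Finset.mem_powerset]
      exact ⟨(hBs B hB).2.1, (hBs B hB).1⟩
    · intro B _ _
      exact hterm0 B
  refine h2.trans ?_
  have h3 : ∑ B ∈ Y.powerset, (∏ v ∈ B, f v) * ∏ v ∈ Y \ B, g v = ∏ v ∈ Y, (f v + g v) :=
    (Finset.prod_add f g Y).symm
  have h4 : ∑ B ∈ Y.powerset.erase ∅, (∏ v ∈ B, f v) * ∏ v ∈ Y \ B, g v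
      = ∏ v ∈ Y, (f v + g v) - ∏ v ∈ Y, g v := by
    rw [← h3, ← Finset.sum_erase_add _ _ (Finset.empty_mem_powerset Y)]
    simp
  rw [h4]
  have hYw : Y.card ≤ w := by
    calc Y.card ≤ (τ.map Prod.fst).length := List.toFinset_card_le _
      _ = τ.length := List.length_map _
      _ ≤ w := hw
  have hpow : ∀ n : ℕ, n ≤ w → (1 + 2 * μ) ^ n ≤ 8 / 7 := by
    intro n hn
    have e1 : (1 + 2 * μ) ^ n ≤ (Real.exp (2 * μ)) ^ n := by
      gcongr
      linarith [Real.add_one_le_exp (2 * μ)]
    have e2 : (Real.exp (2 * μ)) ^ n = Real.exp (n * (2 * μ)) := by rw [← Real.exp_nat_mul]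
    have hn' : (n : ℝ) ≤ w := by exact_mod_cast hn
    have e3 : (n : ℝ) * (2 * μ) ≤ 1 / 8 := by nlinarith
    have e4 : Real.exp (n * (2 * μ)) ≤ Real.exp (1 / 8) := Real.exp_le_exp.2 e3
    have e5 := Real.exp_bound_div_one_sub_of_interval (x := 1 / 8) (by norm_num) (by norm_num)
    have e6 : (1 : ℝ) / (1 - 1 / 8) = 8 / 7 := by norm_num
    rw [e6] at e5
    linarith
  have hle : ∀ v, f v + g v ≤ 1 + 2 * μ := by
    intro v
    simp only [hf, hg]
    split_ifs <;> linarith
  have h0 : ∀ v, 0 ≤ f v + g v := fun v => add_nonneg (hf0 v) (hg0 v)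
  by_cases hX : ∃ v ∈ Y, v ∈ P ∧ κ v = none
  · obtain ⟨v, hv, hvP, hvn⟩ := hX
    have e1 : ∏ u ∈ Y, (f u + g u) = (f v + g v) * ∏ u ∈ Y.erase v, (f u + g u) :=
      (Finset.mul_prod_erase Y _ hv).symm
    have e2 : f v + g v = 1 / 4 := by
      simp only [hf, hg, hvP, hvn, if_true]
      norm_num
    have e3 : ∏ u ∈ Y.erase v, (f u + g u) ≤ (1 + 2 * μ) ^ (Y.erase v).card := by
      rw [← Finset.prod_const]
      exact Finset.prod_le_prod (fun u _ => h0 u) (fun u _ => hle u)
    have e4 := hpow (Y.erase v).card (by rw [Finset.card_erase_of_mem hv]; omega)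
    have e5 : 0 ≤ ∏ v ∈ Y, g v := Finset.prod_nonneg (fun v _ => hg0 v)
    rw [e1, e2]
    linarith
  · push Not at hX
    have e1 : ∏ v ∈ Y, g v = 1 := by
      apply Finset.prod_eq_one
      intro v hv
      simp only [hg]
      split_ifs with h2 h3
      · exact absurd h3 (hX v hv h2)
      · rfl
      · rfl
    have e3 : ∏ u ∈ Y, (f u + g u) ≤ (1 + 2 * μ) ^ Y.card := by
      rw [← Finset.prod_const]
      exact Finset.prod_le_prod (fun u _ => h0 u) (fun u _ => hle u)
    have e4 := hpow Y.card hYw
    rw [e1]
    linarith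

end

theorem sws (hN : T_NXS) : T_SWS := by
  intro V _ _ cs w P κ μ S hw1 hcs hμ hwμ hS
  have key : ∀ n : ℕ, ∀ (κ : PA V) (S : Finset (List (List (V × Bool)))),
      (∀ π ∈ S, IsD cs P κ π) → (∀ π ∈ S, π.length ≤ n) →
      ∑ π ∈ S, gW μ P π.flatten ≤ 3 / 2 := by
    intro n
    have base : ∀ S : Finset (List (List (V × Bool))), (∀ π ∈ S, π = []) →
        ∑ π ∈ S, gW μ P π.flatten ≤ 3 / 2 := by
      intro S hS
      have h1 : S ⊆ {[]} := fun π hπ => Finset.mem_singleton.2 (hS π hπ)
      calc ∑ π ∈ S, gW μ P π.flatten ≤ ∑ π ∈ ({[]} : Finset (List (List (V × Bool)))), gW μ P π.flatten :=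
            Finset.sum_le_sum_of_subset_of_nonneg h1 (fun _ _ _ => gW_nonneg hμ _ _)
        _ = 1 := by rw [Finset.sum_singleton, List.flatten_nil, gW_nil]
        _ ≤ 3 / 2 := by norm_num
    induction n with
    | zero =>
      intro κ S _ hlen
      exact base S (fun π hπ => List.eq_nil_of_length_eq_zero (Nat.le_zero.1 (hlen π hπ)))
    | succ n ih =>
      intro κ S hS hlen
      cases hn : nxt cs κ with
      | none =>
        apply base S
        intro π hπ
        cases π with
        | nil => rfl
        | cons α π =>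
          obtain ⟨⟨τ, hτ, _⟩, _⟩ := hS _ hπ
          rw [hn] at hτ
          exact absurd hτ (by simp)
      | some τ =>
        obtain ⟨_, _, c, hc, hpath⟩ := (hN V cs κ).1 τ hn
        have hlenτ : τ.length ≤ w := (path_length hpath).trans (hcs c hc)
        set Bs : Finset (Finset V) := (τ.map Prod.fst).toFinset.powerset.filter (fun B => B ≠ ∅ ∧
          ∀ v ∈ P, v ∈ τ.map Prod.fst → (v ∈ B ↔ κ v = none)) with hBs
        set Hd : Finset (List (V × Bool)) := Bs.biUnion (fun B => ansF (lstB τ B)) with hHd
        set tails : List (V × Bool) → Finset (List (List (V × Bool))) := fun α =>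
          (S.filter (fun π => π.head? = some α)).image List.tail with htails
        have htail : ∀ α π, π ∈ tails α → α :: π ∈ S := by
          intro α π hπ
          simp only [htails, Finset.mem_image, Finset.mem_filter] at hπ
          obtain ⟨ρ, ⟨hρ, hh⟩, rfl⟩ := hπ
          cases ρ with
          | nil => simp at hh
          | cons β ρ =>
            simp only [List.head?_cons, Option.some.injEq] at hh
            rw [← hh]
            exact hρ
        have hcov : S ⊆ {[]} ∪ Hd.biUnion (fun α => (tails α).image (List.cons α)) := by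
          intro π hπ
          cases π with
          | nil => exact Finset.mem_union_left _ (Finset.mem_singleton_self _)
          | cons α π =>
            apply Finset.mem_union_right
            rw [Finset.mem_biUnion]
            refine ⟨α, ?_, ?_⟩
            · obtain ⟨⟨τ', hτ', hαn, B, hB1, hB2⟩, _⟩ := hS _ hπ
              rw [hn, Option.some.injEq] at hτ'
              subst hτ'
              rw [hHd, Finset.mem_biUnion]
              refine ⟨B ∩ (τ.map Prod.fst).toFinset, ?_, ?_⟩
              · rw [hBs, Finset.mem_filter, Finset.mem_powerset]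
                refine ⟨Finset.inter_subset_right, ?_, ?_⟩
                · intro h0
                  have h1 : lstB τ (B ∩ (τ.map Prod.fst).toFinset) = lstB τ B := lstB_inter τ B
                  rw [h0] at h1
                  have h2 : lstB τ ∅ = [] := by simp [lstB]
                  rw [h2] at h1
                  have h3 : α.map Prod.fst = [] := by rw [hB2]; exact h1.symm
                  exact hαn (List.map_eq_nil_iff.1 h3)
                · intro v hvP hvτ
                  rw [Finset.mem_inter, List.mem_toFinset, ← hB1 v hvP hvτ]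
                  exact ⟨fun h => h.1, fun h => ⟨h, hvτ⟩⟩
              · rw [mem_ansF, lstB_inter]
                exact hB2
            · rw [Finset.mem_image]
              refine ⟨π, ?_, rfl⟩
              simp only [htails, Finset.mem_image, Finset.mem_filter]
              exact ⟨α :: π, ⟨hπ, rfl⟩, rfl⟩
        have hnn : ∀ π : List (List (V × Bool)), 0 ≤ gW μ P π.flatten := fun π => gW_nonneg hμ _ _
        have hmain : ∀ α, ∑ π ∈ (tails α).image (List.cons α), gW μ P π.flatten ≤ gW μ P α * (3 / 2) := by
          intro α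
          rw [Finset.sum_image (fun a _ b _ h => (List.cons.inj h).2)]
          simp_rw [List.flatten_cons, gW_append]
          rw [← Finset.mul_sum]
          apply mul_le_mul_of_nonneg_left _ (gW_nonneg hμ _ _)
          apply ih (updL κ α)
          · intro π hπ
            exact (hS _ (htail α π hπ)).2
          · intro π hπ
            have := hlen _ (htail α π hπ)
            simp only [List.length_cons] at this
            omega
        calc ∑ π ∈ S, gW μ P π.flatten
            ≤ ∑ π ∈ {[]} ∪ Hd.biUnion (fun α => (tails α).image (List.cons α)), gW μ P π.flatten :=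
              Finset.sum_le_sum_of_subset_of_nonneg hcov (fun _ _ _ => hnn _)
          _ ≤ ∑ π ∈ ({[]} : Finset (List (List (V × Bool)))), gW μ P π.flatten
              + ∑ π ∈ Hd.biUnion (fun α => (tails α).image (List.cons α)), gW μ P π.flatten := by
              have h1 := Finset.sum_union_inter (s₁ := ({[]} : Finset (List (List (V × Bool)))))
                (s₂ := Hd.biUnion (fun α => (tails α).image (List.cons α)))
                (f := fun π => gW μ P π.flatten)
              have h2 : 0 ≤ ∑ x ∈ ({[]} : Finset (List (List (V × Bool)))) ∩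
                  Hd.biUnion (fun α => (tails α).image (List.cons α)), gW μ P x.flatten :=
                Finset.sum_nonneg (fun x _ => hnn x)
              linarith
          _ ≤ 1 + ∑ α ∈ Hd, ∑ π ∈ (tails α).image (List.cons α), gW μ P π.flatten := by
              have h1 := sum_biUnion_le' Hd (fun α => (tails α).image (List.cons α))
                (fun π => gW μ P π.flatten) hnn
              rw [Finset.sum_singleton, List.flatten_nil, gW_nil]
              linarith
          _ ≤ 1 + ∑ α ∈ Hd, gW μ P α * (3 / 2) := by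
              have := Finset.sum_le_sum (s := Hd) (fun α _ => hmain α)
              linarith
          _ = 1 + (∑ α ∈ Hd, gW μ P α) * (3 / 2) := by rw [Finset.sum_mul]
          _ ≤ 1 + (∑ B ∈ Bs, ∑ α ∈ ansF (lstB τ B), gW μ P α) * (3 / 2) := by
              have := sum_biUnion_le' Bs (fun B => ansF (lstB τ B)) (fun α => gW μ P α)
                (fun α => gW_nonneg hμ _ _)
              linarith
          _ ≤ 1 + 1 / 3 * (3 / 2) := by
              have := sum_heads hμ P κ τ hlenτ hwμ Bs (by
                intro B hB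
                rw [hBs, Finset.mem_filter, Finset.mem_powerset] at hB
                exact ⟨hB.1, hB.2.1, hB.2.2⟩)
              linarith
          _ = 3 / 2 := by norm_num
  exact key (S.sup List.length) κ S hS (fun π hπ => Finset.le_sup (f := List.length) hπ)

end Pool.Agent.H42.AC
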