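import Mathlib
import Pool.Agent.H68.AC.Targets
import Pool.Agent.H42.AC.SWS
import Pool.Agent.H42.AC.SWM

/-!
# SETH for constant-depth circuits: the switching lemma with a planted set (`T_SW`)
-/

namespace Pool.Agent.H42.AC

open Finset
open Pool.Agent.H68.AC

theorem sum_wt {V : Type} [DecidableEq V] [Fintype V] (q p : ℝ) : ∑ R : PA V, wt q p R = 1 := by
  unfold wt
  have h1 := Finset.prod_univ_sum (fun _ : V => (Finset.univ : Finset (Option Bool)))
    (fun _ o => w1 q p o)
  rw [Fintype.piFinset_univ] at h1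
  rw [← h1]
  apply Finset.prod_eq_one
  intro v _
  rw [Fintype.sum_option, Fintype.sum_bool]
  simp only [w1]
  ring

theorem w1_nonneg {q p : ℝ} (hq : 0 ≤ q) (hq1 : q ≤ 1) (hp : 0 ≤ p) (hp1 : p ≤ 1) (o : Option Bool) :
    0 ≤ w1 q p o := by
  match o with
  | none => exact hq
  | some true => exact mul_nonneg (by linarith) hp
  | some false => exact mul_nonneg (by linarith) (by linarith)

theorem wt_nonneg {V : Type} [Fintype V] {q p : ℝ} (hq : 0 ≤ q) (hq1 : q ≤ 1) (hp : 0 ≤ p)
    (hp1 : p ≤ 1) (R : PA V) : 0 ≤ wt q p R :=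
  Finset.prod_nonneg (fun _ _ => w1_nonneg hq hq1 hp hp1 _)

theorem gW_prod {V : Type} [DecidableEq V] [Fintype V] (μ : ℝ) (P : Finset V) (ψ : List (V × Bool))
    (h : (ψ.map Prod.fst).Nodup) :
    gW μ P ψ = ∏ v, if v ∈ (ψ.map Prod.fst).toFinset then wv μ P v else 1 := by
  rw [gW_eq, ← List.prod_toFinset _ h, Finset.prod_ite_mem, Finset.univ_inter]

theorem sw (hS : T_SWS) (hM : T_SWM) (hB : T_BPN) : T_SW := by
  classical
  intro V _ _ cs w P ρ p q n hw hcs hp hp2 hq hq2 hwq
  -- encoding
  have hex : ∀ x : PA V × List (List (V × Bool)), ∃ R' : PA V,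
      IsBP cs (mask P (mrg ρ x.1)) x.2 →
      (∀ v, (v ∈ P ∨ v ∉ x.2.flatten.map Prod.fst) → R' v = x.1 v) ∧
      (∀ v, v ∉ P → v ∈ x.2.flatten.map Prod.fst → x.1 v = none ∧ R' v ≠ none) ∧
      IsD cs P (mask P (mrg ρ R')) x.2 := by
    intro x
    by_cases h : IsBP cs (mask P (mrg ρ x.1)) x.2
    · obtain ⟨R', h1⟩ := hM V cs P ρ x.1 x.2 h
      exact ⟨R', fun _ => h1⟩
    · exact ⟨x.1, fun h' => absurd h' h⟩
  choose E hE using hex
  set μ : ℝ := 4 * q / p with hμ
  have hμ0 : 0 ≤ μ := by positivity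
  have hwμ : 16 * w * μ ≤ 1 := by
    have : 16 * (w : ℝ) * (4 * q / p) = 64 * w * q / p := by ring
    rw [hμ, this, div_le_one hp]
    exact hwq
  have hpt : ∀ x : PA V × List (List (V × Bool)), IsBP cs (mask P (mrg ρ x.1)) x.2 →
      wt q p x.1 * gW 2 P x.2.flatten ≤ wt q p (E x) * gW μ P x.2.flatten := by
    intro x hx
    obtain ⟨h1, h2, _⟩ := hE x hx
    have hnd := (hB V cs _ _ hx).1
    rw [gW_prod _ _ _ hnd, gW_prod _ _ _ hnd]
    unfold wt
    rw [← Finset.prod_mul_distrib, ← Finset.prod_mul_distrib]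
    apply Finset.prod_le_prod
    · intro v _
      apply mul_nonneg (w1_nonneg hq.le (by linarith) hp.le (by linarith) _)
      split_ifs
      · unfold wv; split_ifs <;> norm_num
      · norm_num
    · intro v _
      by_cases hv : v ∈ x.2.flatten.map Prod.fst
      · rw [if_pos (List.mem_toFinset.2 hv), if_pos (List.mem_toFinset.2 hv)]
        by_cases hP : v ∈ P
        · rw [h1 v (Or.inl hP)]
          unfold wv
          rw [if_pos hP, if_pos hP]
        · obtain ⟨e1, e2⟩ := h2 v hP hv
          unfold wv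
          rw [if_neg hP, if_neg hP, e1]
          have e3 : p / 2 ≤ w1 q p (E x v) := by
            cases ho : E x v with
            | none => exact absurd ho e2
            | some b =>
              cases b with
              | true => simp only [w1]; nlinarith
              | false => simp only [w1]; nlinarith
          simp only [w1]
          have e4 : q * 2 = p / 2 * μ := by
            rw [hμ]
            field_simp
            ring
          rw [e4]
          exact mul_le_mul_of_nonneg_right e3 hμ0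
      · rw [if_neg (fun h => hv (List.mem_toFinset.1 h)), if_neg (fun h => hv (List.mem_toFinset.1 h)),
          h1 v (Or.inr hv)]
  -- the set of pairs
  set D : Finset (PA V × List (List (V × Bool))) :=
    (Finset.univ : Finset (PA V)).biUnion
      (fun R => (BPF cs n (mask P (mrg ρ R))).image (fun π => (R, π))) with hD
  have hmemD : ∀ x : PA V × List (List (V × Bool)), x ∈ D ↔ x.2 ∈ BPF cs n (mask P (mrg ρ x.1)) := by
    intro x
    rw [hD, Finset.mem_biUnion]
    constructor
    · rintro ⟨R, _, hR⟩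
      rw [Finset.mem_image] at hR
      obtain ⟨π, hπ, rfl⟩ := hR
      exact hπ
    · intro h
      refine ⟨x.1, Finset.mem_univ _, ?_⟩
      rw [Finset.mem_image]
      exact ⟨x.2, h, rfl⟩
  have hDbp : ∀ x ∈ D, IsBP cs (mask P (mrg ρ x.1)) x.2 := fun x hx =>
    (mem_BPF.1 ((hmemD x).1 hx)).1
  have hsumD : ∑ R : PA V, wt q p R * ∑ π ∈ BPF cs n (mask P (mrg ρ R)), gW 2 P π.flatten
      = ∑ x ∈ D, wt q p x.1 * gW 2 P x.2.flatten := by
    rw [hD, Finset.sum_biUnion]
    · apply Finset.sum_congr rfl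
      intro R _
      rw [Finset.sum_image (fun a _ b _ h => congrArg Prod.snd h), Finset.mul_sum]
    · intro R _ R2 _ hne
      rw [Function.onFun, Finset.disjoint_left]
      intro x hx hx2
      rw [Finset.mem_image] at hx hx2
      obtain ⟨π, _, rfl⟩ := hx
      obtain ⟨π2, _, h2⟩ := hx2
      exact hne (congrArg Prod.fst h2).symm
  rw [hsumD]
  set allp : Finset (List (List (V × Bool))) :=
    (Finset.univ : Finset (PA V)).biUnion (fun R => BPF cs n (mask P (mrg ρ R))) with hallp
  have hinj : Set.InjOn (fun x : PA V × List (List (V × Bool)) => (E x, x.2)) D := by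
    intro x hx y hy hxy
    have hx' := hE x (hDbp x hx)
    have hy' := hE y (hDbp y hy)
    simp only [Prod.mk.injEq] at hxy
    have e1 : E x = E y := hxy.1
    have e2 : x.2 = y.2 := hxy.2
    apply Prod.ext _ e2
    funext v
    by_cases hv : v ∉ P ∧ v ∈ x.2.flatten.map Prod.fst
    · rw [(hx'.2.1 v hv.1 hv.2).1, (hy'.2.1 v hv.1 (by rw [← e2]; exact hv.2)).1]
    · have hv' : v ∈ P ∨ v ∉ x.2.flatten.map Prod.fst := by
        by_cases hP : v ∈ P
        · exact Or.inl hP
        · exact Or.inr (fun h => hv ⟨hP, h⟩)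
      rw [← hx'.1 v hv', ← hy'.1 v (by rw [← e2]; exact hv'), e1]
  have hnn : ∀ R : PA V, 0 ≤ wt q p R := fun R =>
    wt_nonneg hq.le (by linarith) hp.le (by linarith) R
  calc ∑ x ∈ D, wt q p x.1 * gW 2 P x.2.flatten
      ≤ ∑ x ∈ D, wt q p (E x) * gW μ P x.2.flatten :=
        Finset.sum_le_sum (fun x hx => hpt x (hDbp x hx))
    _ = ∑ y ∈ D.image (fun x => (E x, x.2)), wt q p y.1 * gW μ P y.2.flatten := by
        rw [Finset.sum_image hinj]
    _ ≤ ∑ y ∈ (Finset.univ : Finset (PA V)).biUnion (fun R' =>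
          (allp.filter (fun π => IsD cs P (mask P (mrg ρ R')) π)).image (fun π => (R', π))),
          wt q p y.1 * gW μ P y.2.flatten := by
        apply Finset.sum_le_sum_of_subset_of_nonneg
        · intro y hy
          rw [Finset.mem_image] at hy
          obtain ⟨x, hx, rfl⟩ := hy
          rw [Finset.mem_biUnion]
          refine ⟨E x, Finset.mem_univ _, ?_⟩
          rw [Finset.mem_image]
          refine ⟨x.2, ?_, rfl⟩
          rw [Finset.mem_filter]
          refine ⟨?_, (hE x (hDbp x hx)).2.2⟩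
          rw [hallp, Finset.mem_biUnion]
          exact ⟨x.1, Finset.mem_univ _, (hmemD x).1 hx⟩
        · intro y _ _
          exact mul_nonneg (hnn _) (gW_nonneg hμ0 _ _)
    _ ≤ ∑ R' : PA V, ∑ y ∈ (allp.filter (fun π => IsD cs P (mask P (mrg ρ R')) π)).image
          (fun π => (R', π)), wt q p y.1 * gW μ P y.2.flatten := by
        apply sum_biUnion_le'
        intro y
        exact mul_nonneg (hnn _) (gW_nonneg hμ0 _ _)
    _ ≤ ∑ R' : PA V, wt q p R' * (3 / 2) := by
        apply Finset.sum_le_sum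
        intro R' _
        rw [Finset.sum_image (fun a _ b _ h => congrArg Prod.snd h)]
        simp only
        rw [← Finset.mul_sum]
        apply mul_le_mul_of_nonneg_left _ (hnn R')
        apply hS V cs w P (mask P (mrg ρ R')) μ _ hw hcs hμ0 hwμ
        intro π hπ
        rw [Finset.mem_filter] at hπ
        exact hπ.2
    _ = 3 / 2 := by rw [← Finset.sum_mul, sum_wt, one_mul]

end Pool.Agent.H42.AC
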